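import Mathlib.Algebra.Order.Archimedean.Real.Basic

/-! The first order inequality for systems: three polynomial inequalities on the unit square. -/

set_option autoImplicit false

noncomputable section

namespace Pool.Agent.MP_815c6c_an.Lam

/-- a polynomial of the certificate -/
def p0 (w e : ℝ) : ℝ :=
    ((4) * e ^ 2 + (-4) * e ^ 3) * w ^ 0 +
    ((39 / 100) + (3 / 5) * e ^ 1 + (-72 / 5) * e ^ 2 + (77 / 5) * e ^ 3) * w ^ 1 +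
    ((-1 / 5) + (7 / 5) * e ^ 1 + (72 / 5) * e ^ 2 + (-108 / 5) * e ^ 3) * w ^ 2 +
    ((-2) * e ^ 1 + (-4) * e ^ 2 + (13) * e ^ 3) * w ^ 3 +
    ((-14 / 5) * e ^ 3) * w ^ 4

theorem p0_0 {w e : ℝ} (h1 : 0 ≤ w) (h2 : w ≤ 1 / 2) (h3 : 0 ≤ e) (h4 : e ≤ 1) :
    0 ≤ p0 w e := by
  have k : ∀ a b y z : ℝ, 0 ≤ a → 0 ≤ b → 0 ≤ y → 0 ≤ z → 0 ≤
      (64 * y ^ 2 * z ^ 1) * a ^ 0 * b ^ 4 +
      (78 / 25 * y ^ 0 * z ^ 3 +
        354 / 25 * y ^ 1 * z ^ 2 +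
        3994 / 25 * y ^ 2 * z ^ 1 +
        398 / 25 * y ^ 3 * z ^ 0) * a ^ 1 * b ^ 3 +
      (214 / 25 * y ^ 0 * z ^ 3 +
        1142 / 25 * y ^ 1 * z ^ 2 +
        4042 / 25 * y ^ 2 * z ^ 1 +
        594 / 25 * y ^ 3 * z ^ 0) * a ^ 2 * b ^ 2 +
      (194 / 25 * y ^ 0 * z ^ 3 +
        1122 / 25 * y ^ 1 * z ^ 2 +
        2102 / 25 * y ^ 2 * z ^ 1 +
        344 / 25 * y ^ 3 * z ^ 0) * a ^ 3 * b ^ 1 +
      (58 / 25 * y ^ 0 * z ^ 3 +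
        334 / 25 * y ^ 1 * z ^ 2 +
        454 / 25 * y ^ 2 * z ^ 1 +
        78 / 25 * y ^ 3 * z ^ 0) * a ^ 4 * b ^ 0 := by
    intro a b y z _ _ _ _
    positivity
  refine (k _ _ _ _ (sub_nonneg.2 h1) (sub_nonneg.2 h2) (sub_nonneg.2 h3) (sub_nonneg.2 h4)).trans_eq ?_
  unfold p0
  ring

theorem p0_1 {w e : ℝ} (h1 : 1 / 2 ≤ w) (h2 : w ≤ 1) (h3 : 0 ≤ e) (h4 : e ≤ 1) :
    0 ≤ p0 w e := by
  have k : ∀ a b y z : ℝ, 0 ≤ a → 0 ≤ b → 0 ≤ y → 0 ≤ z → 0 ≤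
      (58 / 25 * y ^ 0 * z ^ 3 +
        334 / 25 * y ^ 1 * z ^ 2 +
        454 / 25 * y ^ 2 * z ^ 1 +
        78 / 25 * y ^ 3 * z ^ 0) * a ^ 0 * b ^ 4 +
      (54 / 5 * y ^ 0 * z ^ 3 +
        62 * y ^ 1 * z ^ 2 +
        306 / 5 * y ^ 2 * z ^ 1 +
        56 / 5 * y ^ 3 * z ^ 0) * a ^ 1 * b ^ 3 +
      (442 / 25 * y ^ 0 * z ^ 3 +
        2426 / 25 * y ^ 1 * z ^ 2 +
        2326 / 25 * y ^ 2 * z ^ 1 +
        402 / 25 * y ^ 3 * z ^ 0) * a ^ 2 * b ^ 2 +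
      (306 / 25 * y ^ 0 * z ^ 3 +
        1438 / 25 * y ^ 1 * z ^ 2 +
        1478 / 25 * y ^ 2 * z ^ 1 +
        346 / 25 * y ^ 3 * z ^ 0) * a ^ 3 * b ^ 1 +
      (76 / 25 * y ^ 0 * z ^ 3 +
        228 / 25 * y ^ 1 * z ^ 2 +
        228 / 25 * y ^ 2 * z ^ 1 +
        76 / 25 * y ^ 3 * z ^ 0) * a ^ 4 * b ^ 0 := by
    intro a b y z _ _ _ _
    positivity
  refine (k _ _ _ _ (sub_nonneg.2 h1) (sub_nonneg.2 h2) (sub_nonneg.2 h3) (sub_nonneg.2 h4)).trans_eq ?_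
  unfold p0
  ring

theorem p0_nonneg {w e : ℝ} (h1 : 0 ≤ w) (h2 : w ≤ 1) (h3 : 0 ≤ e) (h4 : e ≤ 1) :
    0 ≤ p0 w e := by
  rcases le_total w (1 / 2) with g2 | g2
  · exact p0_0 h1 g2 h3 h4
  · exact p0_1 g2 h2 h3 h4

/-- a polynomial of the certificate -/
def p1 (w e : ℝ) : ℝ :=
    ((199 / 100) + (-149 / 25) * e ^ 1 + (247 / 50) * e ^ 2 + (1 / 25) * e ^ 3 + (-1 / 100) * e ^ 4 + (-2) * e ^ 5 + (1) * e ^ 6) * w ^ 0 +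
    ((-199 / 100) + (24 / 25) * e ^ 1 + (323 / 50) * e ^ 2 + (-196 / 25) * e ^ 3 + (701 / 100) * e ^ 4 + (-6 / 5) * e ^ 5 + (-17 / 5) * e ^ 6) * w ^ 1 +
    ((5) * e ^ 1 + (-551 / 50) * e ^ 2 + (49 / 5) * e ^ 3 + (-132 / 5) * e ^ 4 + (112 / 5) * e ^ 5 + (21 / 5) * e ^ 6) * w ^ 2 +
    ((2) * e ^ 3 + (27) * e ^ 4 + (-194 / 5) * e ^ 5 + (-11 / 5) * e ^ 6) * w ^ 3 +
    ((-4) * e ^ 3 + (-38 / 5) * e ^ 4 + (126 / 5) * e ^ 5 + (2 / 5) * e ^ 6) * w ^ 4 +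
    ((-28 / 5) * e ^ 5) * w ^ 5

theorem p1_0 {w e : ℝ} (h1 : 0 ≤ w) (h2 : w ≤ 1 / 2) (h3 : 0 ≤ e) (h4 : e ≤ 1 / 2) :
    0 ≤ p1 w e := by
  have k : ∀ a b y z : ℝ, 0 ≤ a → 0 ≤ b → 0 ≤ y → 0 ≤ z → 0 ≤
      (101888 / 25 * y ^ 0 * z ^ 6 +
        458752 / 25 * y ^ 1 * z ^ 5 +
        828672 / 25 * y ^ 2 * z ^ 4 +
        765184 / 25 * y ^ 3 * z ^ 3 +
        382688 / 25 * y ^ 4 * z ^ 2 +
        19776 / 5 * y ^ 5 * z ^ 1 +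
        10368 / 25 * y ^ 6 * z ^ 0) * a ^ 0 * b ^ 5 +
      (458496 / 25 * y ^ 0 * z ^ 6 +
        2000384 / 25 * y ^ 1 * z ^ 5 +
        3481984 / 25 * y ^ 2 * z ^ 4 +
        3070208 / 25 * y ^ 3 * z ^ 3 +
        1456176 / 25 * y ^ 4 * z ^ 2 +
        72352 / 5 * y ^ 5 * z ^ 1 +
        38336 / 25 * y ^ 6 * z ^ 0) * a ^ 1 * b ^ 4 +
      (815104 / 25 * y ^ 0 * z ^ 6 +
        3446016 / 25 * y ^ 1 * z ^ 5 +
        5765952 / 25 * y ^ 2 * z ^ 4 +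
        4823616 / 25 * y ^ 3 * z ^ 3 +
        426432 / 5 * y ^ 4 * z ^ 2 +
        490944 / 25 * y ^ 5 * z ^ 1 +
        10152 / 5 * y ^ 6 * z ^ 0) * a ^ 2 * b ^ 3 +
      (713216 / 25 * y ^ 0 * z ^ 6 +
        2923264 / 25 * y ^ 1 * z ^ 5 +
        4692672 / 25 * y ^ 2 * z ^ 4 +
        740608 / 5 * y ^ 3 * z ^ 3 +
        1501904 / 25 * y ^ 4 * z ^ 2 +
        309712 / 25 * y ^ 5 * z ^ 1 +
        30364 / 25 * y ^ 6 * z ^ 0) * a ^ 3 * b ^ 2 +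
      (305664 / 25 * y ^ 0 * z ^ 6 +
        1216256 / 25 * y ^ 1 * z ^ 5 +
        1872064 / 25 * y ^ 2 * z ^ 4 +
        1388544 / 25 * y ^ 3 * z ^ 3 +
        512272 / 25 * y ^ 4 * z ^ 2 +
        93912 / 25 * y ^ 5 * z ^ 1 +
        9372 / 25 * y ^ 6 * z ^ 0) * a ^ 4 * b ^ 1 +
      (50944 / 25 * y ^ 0 * z ^ 6 +
        197376 / 25 * y ^ 1 * z ^ 5 +
        292032 / 25 * y ^ 2 * z ^ 4 +
        204096 / 25 * y ^ 3 * z ^ 3 +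
        13808 / 5 * y ^ 4 * z ^ 2 +
        11984 / 25 * y ^ 5 * z ^ 1 +
        304 / 5 * y ^ 6 * z ^ 0) * a ^ 5 * b ^ 0 := by
    intro a b y z _ _ _ _
    positivity
  refine (k _ _ _ _ (sub_nonneg.2 h1) (sub_nonneg.2 h2) (sub_nonneg.2 h3) (sub_nonneg.2 h4)).trans_eq ?_
  unfold p1
  ring

theorem p1_1 {w e : ℝ} (h1 : 0 ≤ w) (h2 : w ≤ 1 / 2) (h3 : 1 / 2 ≤ e) (h4 : e ≤ 1) :
    0 ≤ p1 w e := by
  have k : ∀ a b y z : ℝ, 0 ≤ a → 0 ≤ b → 0 ≤ y → 0 ≤ z → 0 ≤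
      (10368 / 25 * y ^ 0 * z ^ 6 +
        25536 / 25 * y ^ 1 * z ^ 5 +
        15968 / 25 * y ^ 2 * z ^ 4) * a ^ 0 * b ^ 5 +
      (38336 / 25 * y ^ 0 * z ^ 6 +
        98272 / 25 * y ^ 1 * z ^ 5 +
        138736 / 25 * y ^ 2 * z ^ 4 +
        48512 / 5 * y ^ 3 * z ^ 3 +
        10752 * y ^ 4 * z ^ 2 +
        4096 * y ^ 5 * z ^ 1) * a ^ 1 * b ^ 4 +
      (10152 / 5 * y ^ 0 * z ^ 6 +
        118176 / 25 * y ^ 1 * z ^ 5 +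
        53664 / 5 * y ^ 2 * z ^ 4 +
        717504 / 25 * y ^ 3 * z ^ 3 +
        902976 / 25 * y ^ 4 * z ^ 2 +
        86784 / 5 * y ^ 5 * z ^ 1 +
        50944 / 25 * y ^ 6 * z ^ 0) * a ^ 2 * b ^ 3 +
      (30364 / 25 * y ^ 0 * z ^ 6 +
        54656 / 25 * y ^ 1 * z ^ 5 +
        226624 / 25 * y ^ 2 * z ^ 4 +
        781952 / 25 * y ^ 3 * z ^ 3 +
        1030528 / 25 * y ^ 4 * z ^ 2 +
        20992 * y ^ 5 * z ^ 1 +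
        76032 / 25 * y ^ 6 * z ^ 0) * a ^ 3 * b ^ 2 +
      (9372 / 25 * y ^ 0 * z ^ 6 +
        18552 / 25 * y ^ 1 * z ^ 5 +
        135472 / 25 * y ^ 2 * z ^ 4 +
        452672 / 25 * y ^ 3 * z ^ 3 +
        571648 / 25 * y ^ 4 * z ^ 2 +
        57728 / 5 * y ^ 5 * z ^ 1 +
        44032 / 25 * y ^ 6 * z ^ 0) * a ^ 4 * b ^ 1 +
      (304 / 5 * y ^ 0 * z ^ 6 +
        6256 / 25 * y ^ 1 * z ^ 5 +
        1616 * y ^ 2 * z ^ 4 +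
        112064 / 25 * y ^ 3 * z ^ 3 +
        130496 / 25 * y ^ 4 * z ^ 2 +
        2560 * y ^ 5 * z ^ 1 +
        9984 / 25 * y ^ 6 * z ^ 0) * a ^ 5 * b ^ 0 := by
    intro a b y z _ _ _ _
    positivity
  refine (k _ _ _ _ (sub_nonneg.2 h1) (sub_nonneg.2 h2) (sub_nonneg.2 h3) (sub_nonneg.2 h4)).trans_eq ?_
  unfold p1
  ring

theorem p1_2 {w e : ℝ} (h1 : 1 / 2 ≤ w) (h2 : w ≤ 1) (h3 : 0 ≤ e) (h4 : e ≤ 1 / 2) :
    0 ≤ p1 w e := by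
  have k : ∀ a b y z : ℝ, 0 ≤ a → 0 ≤ b → 0 ≤ y → 0 ≤ z → 0 ≤
      (50944 / 25 * y ^ 0 * z ^ 6 +
        197376 / 25 * y ^ 1 * z ^ 5 +
        292032 / 25 * y ^ 2 * z ^ 4 +
        204096 / 25 * y ^ 3 * z ^ 3 +
        13808 / 5 * y ^ 4 * z ^ 2 +
        11984 / 25 * y ^ 5 * z ^ 1 +
        304 / 5 * y ^ 6 * z ^ 0) * a ^ 0 * b ^ 5 +
      (203776 / 25 * y ^ 0 * z ^ 6 +
        757504 / 25 * y ^ 1 * z ^ 5 +
        1048256 / 25 * y ^ 2 * z ^ 4 +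
        652416 / 25 * y ^ 3 * z ^ 3 +
        178128 / 25 * y ^ 4 * z ^ 2 +
        25928 / 25 * y ^ 5 * z ^ 1 +
        5828 / 25 * y ^ 6 * z ^ 0) * a ^ 1 * b ^ 4 +
      (305664 / 25 * y ^ 0 * z ^ 6 +
        1088256 / 25 * y ^ 1 * z ^ 5 +
        279488 / 5 * y ^ 2 * z ^ 4 +
        758528 / 25 * y ^ 3 * z ^ 3 +
        165328 / 25 * y ^ 4 * z ^ 2 +
        37776 / 25 * y ^ 5 * z ^ 1 +
        16188 / 25 * y ^ 6 * z ^ 0) * a ^ 2 * b ^ 3 +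
      (203776 / 25 * y ^ 0 * z ^ 6 +
        693504 / 25 * y ^ 1 * z ^ 5 +
        823104 / 25 * y ^ 2 * z ^ 4 +
        397248 / 25 * y ^ 3 * z ^ 3 +
        107936 / 25 * y ^ 4 * z ^ 2 +
        14432 / 5 * y ^ 5 * z ^ 1 +
        28096 / 25 * y ^ 6 * z ^ 0) * a ^ 3 * b ^ 2 +
      (50944 / 25 * y ^ 0 * z ^ 6 +
        165376 / 25 * y ^ 1 * z ^ 5 +
        186752 / 25 * y ^ 2 * z ^ 4 +
        106496 / 25 * y ^ 3 * z ^ 3 +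
        16176 / 5 * y ^ 4 * z ^ 2 +
        68064 / 25 * y ^ 5 * z ^ 1 +
        4272 / 5 * y ^ 6 * z ^ 0) * a ^ 4 * b ^ 1 +
      (4864 / 25 * y ^ 2 * z ^ 4 +
        19456 / 25 * y ^ 3 * z ^ 3 +
        29184 / 25 * y ^ 4 * z ^ 2 +
        19456 / 25 * y ^ 5 * z ^ 1 +
        4864 / 25 * y ^ 6 * z ^ 0) * a ^ 5 * b ^ 0 := by
    intro a b y z _ _ _ _
    positivity
  refine (k _ _ _ _ (sub_nonneg.2 h1) (sub_nonneg.2 h2) (sub_nonneg.2 h3) (sub_nonneg.2 h4)).trans_eq ?_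
  unfold p1
  ring

theorem p1_3 {w e : ℝ} (h1 : 1 / 2 ≤ w) (h2 : w ≤ 1) (h3 : 1 / 2 ≤ e) (h4 : e ≤ 1) :
    0 ≤ p1 w e := by
  have k : ∀ a b y z : ℝ, 0 ≤ a → 0 ≤ b → 0 ≤ y → 0 ≤ z → 0 ≤
      (304 / 5 * y ^ 0 * z ^ 6 +
        6256 / 25 * y ^ 1 * z ^ 5 +
        1616 * y ^ 2 * z ^ 4 +
        112064 / 25 * y ^ 3 * z ^ 3 +
        130496 / 25 * y ^ 4 * z ^ 2 +
        2560 * y ^ 5 * z ^ 1 +
        9984 / 25 * y ^ 6 * z ^ 0) * a ^ 0 * b ^ 5 +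
      (5828 / 25 * y ^ 0 * z ^ 6 +
        44008 / 25 * y ^ 1 * z ^ 5 +
        268528 / 25 * y ^ 2 * z ^ 4 +
        667968 / 25 * y ^ 3 * z ^ 3 +
        733312 / 25 * y ^ 4 * z ^ 2 +
        70272 / 5 * y ^ 5 * z ^ 1 +
        55808 / 25 * y ^ 6 * z ^ 0) * a ^ 1 * b ^ 4 +
      (16188 / 25 * y ^ 0 * z ^ 6 +
        31296 / 5 * y ^ 1 * z ^ 5 +
        758848 / 25 * y ^ 2 * z ^ 4 +
        1643136 / 25 * y ^ 3 * z ^ 3 +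
        1677184 / 25 * y ^ 4 * z ^ 2 +
        155136 / 5 * y ^ 5 * z ^ 1 +
        123136 / 25 * y ^ 6 * z ^ 0) * a ^ 2 * b ^ 3 +
      (28096 / 25 * y ^ 0 * z ^ 6 +
        264992 / 25 * y ^ 1 * z ^ 5 +
        1072096 / 25 * y ^ 2 * z ^ 4 +
        83008 * y ^ 3 * z ^ 3 +
        400064 / 5 * y ^ 4 * z ^ 2 +
        181504 / 5 * y ^ 5 * z ^ 1 +
        5888 * y ^ 6 * z ^ 0) * a ^ 3 * b ^ 2 +
      (4272 / 5 * y ^ 0 * z ^ 6 +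
        188256 / 25 * y ^ 1 * z ^ 5 +
        136368 / 5 * y ^ 2 * z ^ 4 +
        1235584 / 25 * y ^ 3 * z ^ 3 +
        1170176 / 25 * y ^ 4 * z ^ 2 +
        109568 / 5 * y ^ 5 * z ^ 1 +
        98304 / 25 * y ^ 6 * z ^ 0) * a ^ 4 * b ^ 1 +
      (4864 / 25 * y ^ 0 * z ^ 6 +
        38912 / 25 * y ^ 1 * z ^ 5 +
        126464 / 25 * y ^ 2 * z ^ 4 +
        214016 / 25 * y ^ 3 * z ^ 3 +
        199424 / 25 * y ^ 4 * z ^ 2 +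
        19456 / 5 * y ^ 5 * z ^ 1 +
        19456 / 25 * y ^ 6 * z ^ 0) * a ^ 5 * b ^ 0 := by
    intro a b y z _ _ _ _
    positivity
  refine (k _ _ _ _ (sub_nonneg.2 h1) (sub_nonneg.2 h2) (sub_nonneg.2 h3) (sub_nonneg.2 h4)).trans_eq ?_
  unfold p1
  ring

theorem p1_nonneg {w e : ℝ} (h1 : 0 ≤ w) (h2 : w ≤ 1) (h3 : 0 ≤ e) (h4 : e ≤ 1) :
    0 ≤ p1 w e := by
  rcases le_total w (1 / 2) with g2 | g2
  · rcases le_total e (1 / 2) with g4 | g4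
    · exact p1_0 h1 g2 h3 g4
    · exact p1_1 h1 g2 g4 h4
  · rcases le_total e (1 / 2) with g4 | g4
    · exact p1_2 g2 h2 h3 g4
    · exact p1_3 g2 h2 g4 h4

/-- a polynomial of the certificate -/
def p2 (w e : ℝ) : ℝ :=
    ((2) + (-8) * e ^ 1 + (12) * e ^ 2 + (-8) * e ^ 3 + (2) * e ^ 4) * w ^ 0 +
    ((-201 / 100) + (251 / 25) * e ^ 1 + (-953 / 50) * e ^ 2 + (401 / 25) * e ^ 3 + (-401 / 100) * e ^ 4 + (-2) * e ^ 5 + (1) * e ^ 6) * w ^ 1 +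
    ((1 / 100) + (-176 / 25) * e ^ 1 + (923 / 50) * e ^ 2 + (-396 / 25) * e ^ 3 + (501 / 100) * e ^ 4 + (14 / 5) * e ^ 5 + (-17 / 5) * e ^ 6) * w ^ 2 +
    ((5) * e ^ 1 + (-1141 / 100) * e ^ 2 + (46 / 5) * e ^ 3 + (-12) * e ^ 4 + (7) * e ^ 5 + (21 / 5) * e ^ 6) * w ^ 3 +
    ((1 / 5) * e ^ 2 + (3 / 5) * e ^ 3 + (63 / 5) * e ^ 4 + (-86 / 5) * e ^ 5 + (-11 / 5) * e ^ 6) * w ^ 4 +
    ((-2) * e ^ 3 + (-18 / 5) * e ^ 4 + (61 / 5) * e ^ 5 + (2 / 5) * e ^ 6) * w ^ 5 +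
    ((-14 / 5) * e ^ 5) * w ^ 6

theorem p2_0 {w e : ℝ} (h1 : 0 ≤ w) (h2 : w ≤ 1 / 2) (h3 : 0 ≤ e) (h4 : e ≤ 1 / 2) :
    0 ≤ p2 w e := by
  have k : ∀ a b y z : ℝ, 0 ≤ a → 0 ≤ b → 0 ≤ y → 0 ≤ z → 0 ≤
      (8192 * y ^ 0 * z ^ 6 +
        32768 * y ^ 1 * z ^ 5 +
        53248 * y ^ 2 * z ^ 4 +
        45056 * y ^ 3 * z ^ 3 +
        20992 * y ^ 4 * z ^ 2 +
        5120 * y ^ 5 * z ^ 1 +
        512 * y ^ 6 * z ^ 0) * a ^ 0 * b ^ 6 +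
      (1125888 / 25 * y ^ 0 * z ^ 6 +
        4554752 / 25 * y ^ 1 * z ^ 5 +
        7484672 / 25 * y ^ 2 * z ^ 4 +
        6397184 / 25 * y ^ 3 * z ^ 3 +
        3006688 / 25 * y ^ 4 * z ^ 2 +
        147776 / 5 * y ^ 5 * z ^ 1 +
        74368 / 25 * y ^ 6 * z ^ 0) * a ^ 1 * b ^ 5 +
      (2557696 / 25 * y ^ 0 * z ^ 6 +
        10397184 / 25 * y ^ 1 * z ^ 5 +
        17126784 / 25 * y ^ 2 * z ^ 4 +
        14615808 / 25 * y ^ 3 * z ^ 3 +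
        6828976 / 25 * y ^ 4 * z ^ 2 +
        332832 / 5 * y ^ 5 * z ^ 1 +
        166336 / 25 * y ^ 6 * z ^ 0) * a ^ 2 * b ^ 4 +
      (3067904 / 25 * y ^ 0 * z ^ 6 +
        12457216 / 25 * y ^ 1 * z ^ 5 +
        20407904 / 25 * y ^ 2 * z ^ 4 +
        17208064 / 25 * y ^ 3 * z ^ 3 +
        7880512 / 25 * y ^ 4 * z ^ 2 +
        1869552 / 25 * y ^ 5 * z ^ 1 +
        181912 / 25 * y ^ 6 * z ^ 0) * a ^ 3 * b ^ 3 +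
      (2044416 / 25 * y ^ 0 * z ^ 6 +
        8248064 / 25 * y ^ 1 * z ^ 5 +
        13342048 / 25 * y ^ 2 * z ^ 4 +
        11006944 / 25 * y ^ 3 * z ^ 3 +
        974192 / 5 * y ^ 4 * z ^ 2 +
        1101856 / 25 * y ^ 5 * z ^ 1 +
        20316 / 5 * y ^ 6 * z ^ 0) * a ^ 4 * b ^ 2 +
      (715264 / 25 * y ^ 0 * z ^ 6 +
        2854656 / 25 * y ^ 1 * z ^ 5 +
        906272 / 5 * y ^ 2 * z ^ 4 +
        3624608 / 25 * y ^ 3 * z ^ 3 +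
        1528528 / 25 * y ^ 4 * z ^ 2 +
        322676 / 25 * y ^ 5 * z ^ 1 +
        27448 / 25 * y ^ 6 * z ^ 0) * a ^ 5 * b ^ 1 +
      (102144 / 25 * y ^ 0 * z ^ 6 +
        402176 / 25 * y ^ 1 * z ^ 5 +
        623904 / 25 * y ^ 2 * z ^ 4 +
        480704 / 25 * y ^ 3 * z ^ 3 +
        190992 / 25 * y ^ 4 * z ^ 2 +
        36952 / 25 * y ^ 5 * z ^ 1 +
        2872 / 25 * y ^ 6 * z ^ 0) * a ^ 6 * b ^ 0 := by
    intro a b y z _ _ _ _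
    positivity
  refine (k _ _ _ _ (sub_nonneg.2 h1) (sub_nonneg.2 h2) (sub_nonneg.2 h3) (sub_nonneg.2 h4)).trans_eq ?_
  unfold p2
  ring

theorem p2_1 {w e : ℝ} (h1 : 0 ≤ w) (h2 : w ≤ 1 / 4) (h3 : 1 / 2 ≤ e) (h4 : e ≤ 1) :
    0 ≤ p2 w e := by
  have k : ∀ a b y z : ℝ, 0 ≤ a → 0 ≤ b → 0 ≤ y → 0 ≤ z → 0 ≤
      (32768 * y ^ 0 * z ^ 6 +
        65536 * y ^ 1 * z ^ 5 +
        32768 * y ^ 2 * z ^ 4) * a ^ 0 * b ^ 6 +
      (4837376 / 25 * y ^ 0 * z ^ 6 +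
        9828352 / 25 * y ^ 1 * z ^ 5 +
        5016576 / 25 * y ^ 2 * z ^ 4) * a ^ 1 * b ^ 5 +
      (11682816 / 25 * y ^ 0 * z ^ 6 +
        23736832 / 25 * y ^ 1 * z ^ 5 +
        12150016 / 25 * y ^ 2 * z ^ 4 +
        202752 / 5 * y ^ 3 * z ^ 3 +
        73728 * y ^ 4 * z ^ 2 +
        32768 * y ^ 5 * z ^ 1) * a ^ 2 * b ^ 4 +
      (14775488 / 25 * y ^ 0 * z ^ 6 +
        5901184 / 5 * y ^ 1 * z ^ 5 +
        14604288 / 25 * y ^ 2 * z ^ 4 +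
        3306496 / 25 * y ^ 3 * z ^ 3 +
        6778624 / 25 * y ^ 4 * z ^ 2 +
        674816 / 5 * y ^ 5 * z ^ 1 +
        203776 / 25 * y ^ 6 * z ^ 0) * a ^ 3 * b ^ 3 +
      (10324048 / 25 * y ^ 0 * z ^ 6 +
        19871488 / 25 * y ^ 1 * z ^ 5 +
        8972928 / 25 * y ^ 2 * z ^ 4 +
        3996288 / 25 * y ^ 3 * z ^ 3 +
        9139712 / 25 * y ^ 4 * z ^ 2 +
        976384 / 5 * y ^ 5 * z ^ 1 +
        457728 / 25 * y ^ 6 * z ^ 0) * a ^ 4 * b ^ 2 +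
      (3780656 / 25 * y ^ 0 * z ^ 6 +
        6859704 / 25 * y ^ 1 * z ^ 5 +
        2577936 / 25 * y ^ 2 * z ^ 4 +
        2199808 / 25 * y ^ 3 * z ^ 3 +
        5460992 / 25 * y ^ 4 * z ^ 2 +
        121984 * y ^ 5 * z ^ 1 +
        348928 / 25 * y ^ 6 * z ^ 0) * a ^ 5 * b ^ 1 +
      (567316 / 25 * y ^ 0 * z ^ 6 +
        945716 / 25 * y ^ 1 * z ^ 5 +
        249656 / 25 * y ^ 2 * z ^ 4 +
        479456 / 25 * y ^ 3 * z ^ 3 +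
        1234304 / 25 * y ^ 4 * z ^ 2 +
        141376 / 5 * y ^ 5 * z ^ 1 +
        90496 / 25 * y ^ 6 * z ^ 0) * a ^ 6 * b ^ 0 := by
    intro a b y z _ _ _ _
    positivity
  refine (k _ _ _ _ (sub_nonneg.2 h1) (sub_nonneg.2 h2) (sub_nonneg.2 h3) (sub_nonneg.2 h4)).trans_eq ?_
  unfold p2
  ring

theorem p2_2 {w e : ℝ} (h1 : 1 / 4 ≤ w) (h2 : w ≤ 1 / 2) (h3 : 1 / 2 ≤ e) (h4 : e ≤ 3 / 4) :
    0 ≤ p2 w e := by
  have k : ∀ a b y z : ℝ, 0 ≤ a → 0 ≤ b → 0 ≤ y → 0 ≤ z → 0 ≤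
      (36308224 / 25 * y ^ 0 * z ^ 6 +
        139187584 / 25 * y ^ 1 * z ^ 5 +
        215807616 / 25 * y ^ 2 * z ^ 4 +
        35650496 / 5 * y ^ 3 * z ^ 3 +
        88550032 / 25 * y ^ 4 * z ^ 2 +
        27489912 / 25 * y ^ 5 * z ^ 1 +
        4273824 / 25 * y ^ 6 * z ^ 0) * a ^ 0 * b ^ 6 +
      (193736704 / 25 * y ^ 0 * z ^ 6 +
        724854528 / 25 * y ^ 1 * z ^ 5 +
        1092310656 / 25 * y ^ 2 * z ^ 4 +
        885256064 / 25 * y ^ 3 * z ^ 3 +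
        451260736 / 25 * y ^ 4 * z ^ 2 +
        154148528 / 25 * y ^ 5 * z ^ 1 +
        27008264 / 25 * y ^ 6 * z ^ 0) * a ^ 1 * b ^ 5 +
      (419612672 / 25 * y ^ 0 * z ^ 6 +
        1515395072 / 25 * y ^ 1 * z ^ 5 +
        2185707008 / 25 * y ^ 2 * z ^ 4 +
        343616512 / 5 * y ^ 3 * z ^ 3 +
        913772416 / 25 * y ^ 4 * z ^ 2 +
        356777856 / 25 * y ^ 5 * z ^ 1 +
        71297312 / 25 * y ^ 6 * z ^ 0) * a ^ 2 * b ^ 4 +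
      (471117824 / 25 * y ^ 0 * z ^ 6 +
        323581952 / 5 * y ^ 1 * z ^ 5 +
        2182189056 / 25 * y ^ 2 * z ^ 4 +
        1636473856 / 25 * y ^ 3 * z ^ 3 +
        943693568 / 25 * y ^ 4 * z ^ 2 +
        443766656 / 25 * y ^ 5 * z ^ 1 +
        101311104 / 25 * y ^ 6 * z ^ 0) * a ^ 3 * b ^ 3 +
      (11546624 * y ^ 0 * z ^ 6 +
        923998208 / 25 * y ^ 1 * z ^ 5 +
        224882688 / 5 * y ^ 2 * z ^ 4 +
        789859328 / 25 * y ^ 3 * z ^ 3 +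
        542055168 / 25 * y ^ 4 * z ^ 2 +
        324090752 / 25 * y ^ 5 * z ^ 1 +
        16584064 / 5 * y ^ 6 * z ^ 0) * a ^ 4 * b ^ 2 +
      (18300928 / 5 * y ^ 0 * z ^ 6 +
        266088448 / 25 * y ^ 1 * z ^ 5 +
        55343104 / 5 * y ^ 2 * z ^ 4 +
        183605248 / 25 * y ^ 3 * z ^ 3 +
        181587968 / 25 * y ^ 4 * z ^ 2 +
        137770752 / 25 * y ^ 5 * z ^ 1 +
        1507712 * y ^ 6 * z ^ 0) * a ^ 5 * b ^ 1 +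
      (11763712 / 25 * y ^ 0 * z ^ 6 +
        30195712 / 25 * y ^ 1 * z ^ 5 +
        25018368 / 25 * y ^ 2 * z ^ 4 +
        745472 * y ^ 3 * z ^ 3 +
        31635456 / 25 * y ^ 4 * z ^ 2 +
        27032576 / 25 * y ^ 5 * z ^ 1 +
        7452672 / 25 * y ^ 6 * z ^ 0) * a ^ 6 * b ^ 0 := by
    intro a b y z _ _ _ _
    positivity
  refine (k _ _ _ _ (sub_nonneg.2 h1) (sub_nonneg.2 h2) (sub_nonneg.2 h3) (sub_nonneg.2 h4)).trans_eq ?_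
  unfold p2
  ring

theorem p2_3 {w e : ℝ} (h1 : 1 / 4 ≤ w) (h2 : w ≤ 1 / 2) (h3 : 3 / 4 ≤ e) (h4 : e ≤ 1) :
    0 ≤ p2 w e := by
  have k : ∀ a b y z : ℝ, 0 ≤ a → 0 ≤ b → 0 ≤ y → 0 ≤ z → 0 ≤
      (4273824 / 25 * y ^ 0 * z ^ 6 +
        23795976 / 25 * y ^ 1 * z ^ 5 +
        70080352 / 25 * y ^ 2 * z ^ 4 +
        114363136 / 25 * y ^ 3 * z ^ 3 +
        98018304 / 25 * y ^ 4 * z ^ 2 +
        39995392 / 25 * y ^ 5 * z ^ 1 +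
        5791744 / 25 * y ^ 6 * z ^ 0) * a ^ 0 * b ^ 6 +
      (27008264 / 25 * y ^ 0 * z ^ 6 +
        33990128 / 5 * y ^ 1 * z ^ 5 +
        530271296 / 25 * y ^ 2 * z ^ 4 +
        880210944 / 25 * y ^ 3 * z ^ 3 +
        761133056 / 25 * y ^ 4 * z ^ 2 +
        315363328 / 25 * y ^ 5 * z ^ 1 +
        47169536 / 25 * y ^ 6 * z ^ 0) * a ^ 1 * b ^ 5 +
      (71297312 / 25 * y ^ 0 * z ^ 6 +
        498789888 / 25 * y ^ 1 * z ^ 5 +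
        1623832576 / 25 * y ^ 2 * z ^ 4 +
        2728552448 / 25 * y ^ 3 * z ^ 3 +
        2376876032 / 25 * y ^ 4 * z ^ 2 +
        998014976 / 25 * y ^ 5 * z ^ 1 +
        153485312 / 25 * y ^ 6 * z ^ 0) * a ^ 2 * b ^ 4 +
      (101311104 / 25 * y ^ 0 * z ^ 6 +
        771966592 / 25 * y ^ 1 * z ^ 5 +
        2584693248 / 25 * y ^ 2 * z ^ 4 +
        4372185088 / 25 * y ^ 3 * z ^ 3 +
        3825324032 / 25 * y ^ 4 * z ^ 2 +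
        1621753856 / 25 * y ^ 5 * z ^ 1 +
        254738432 / 25 * y ^ 6 * z ^ 0) * a ^ 3 * b ^ 3 +
      (16584064 / 5 * y ^ 0 * z ^ 6 +
        670953088 / 25 * y ^ 1 * z ^ 5 +
        2276366848 / 25 * y ^ 2 * z ^ 4 +
        3850203136 / 25 * y ^ 3 * z ^ 3 +
        3368198144 / 25 * y ^ 4 * z ^ 2 +
        1434550272 / 25 * y ^ 5 * z ^ 1 +
        228327424 / 25 * y ^ 6 * z ^ 0) * a ^ 4 * b ^ 2 +
      (1507712 * y ^ 0 * z ^ 6 +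
        314542848 / 25 * y ^ 1 * z ^ 5 +
        1065448448 / 25 * y ^ 2 * z ^ 4 +
        1789116416 / 25 * y ^ 3 * z ^ 3 +
        1557807104 / 25 * y ^ 4 * z ^ 2 +
        663683072 / 25 * y ^ 5 * z ^ 1 +
        106430464 / 25 * y ^ 6 * z ^ 0) * a ^ 5 * b ^ 1 +
      (7452672 / 25 * y ^ 0 * z ^ 6 +
        62399488 / 25 * y ^ 1 * z ^ 5 +
        208470016 / 25 * y ^ 2 * z ^ 4 +
        345571328 / 25 * y ^ 3 * z ^ 3 +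
        298483712 / 25 * y ^ 4 * z ^ 2 +
        126877696 / 25 * y ^ 5 * z ^ 1 +
        20447232 / 25 * y ^ 6 * z ^ 0) * a ^ 6 * b ^ 0 := by
    intro a b y z _ _ _ _
    positivity
  refine (k _ _ _ _ (sub_nonneg.2 h1) (sub_nonneg.2 h2) (sub_nonneg.2 h3) (sub_nonneg.2 h4)).trans_eq ?_
  unfold p2
  ring

theorem p2_4 {w e : ℝ} (h1 : 1 / 2 ≤ w) (h2 : w ≤ 3 / 4) (h3 : 0 ≤ e) (h4 : e ≤ 1 / 2) :
    0 ≤ p2 w e := by
  have k : ∀ a b y z : ℝ, 0 ≤ a → 0 ≤ b → 0 ≤ y → 0 ≤ z → 0 ≤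
      (6537216 / 25 * y ^ 0 * z ^ 6 +
        25739264 / 25 * y ^ 1 * z ^ 5 +
        39929856 / 25 * y ^ 2 * z ^ 4 +
        30765056 / 25 * y ^ 3 * z ^ 3 +
        12223488 / 25 * y ^ 4 * z ^ 2 +
        2364928 / 25 * y ^ 5 * z ^ 1 +
        183808 / 25 * y ^ 6 * z ^ 0) * a ^ 0 * b ^ 6 +
      (35946496 / 25 * y ^ 0 * z ^ 6 +
        140304384 / 25 * y ^ 1 * z ^ 5 +
        214365184 / 25 * y ^ 2 * z ^ 4 +
        160898048 / 25 * y ^ 3 * z ^ 3 +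
        61098496 / 25 * y ^ 4 * z ^ 2 +
        2191744 / 5 * y ^ 5 * z ^ 1 +
        775936 / 25 * y ^ 6 * z ^ 0) * a ^ 1 * b ^ 5 +
      (81678336 / 25 * y ^ 0 * z ^ 6 +
        315551744 / 25 * y ^ 1 * z ^ 5 +
        473579008 / 25 * y ^ 2 * z ^ 4 +
        344525824 / 25 * y ^ 3 * z ^ 3 +
        24726272 / 5 * y ^ 4 * z ^ 2 +
        20003776 / 25 * y ^ 5 * z ^ 1 +
        248256 / 5 * y ^ 6 * z ^ 0) * a ^ 2 * b ^ 4 +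
      (97992704 / 25 * y ^ 0 * z ^ 6 +
        374204416 / 25 * y ^ 1 * z ^ 5 +
        550259456 / 25 * y ^ 2 * z ^ 4 +
        385925632 / 25 * y ^ 3 * z ^ 3 +
        129113344 / 25 * y ^ 4 * z ^ 2 +
        3625536 / 5 * y ^ 5 * z ^ 1 +
        940864 / 25 * y ^ 6 * z ^ 0) * a ^ 3 * b ^ 3 +
      (65314816 / 25 * y ^ 0 * z ^ 6 +
        246257664 / 25 * y ^ 1 * z ^ 5 +
        14160384 * y ^ 2 * z ^ 4 +
        238117632 / 25 * y ^ 3 * z ^ 3 +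
        73155712 / 25 * y ^ 4 * z ^ 2 +
        8450304 / 25 * y ^ 5 * z ^ 1 +
        371872 / 25 * y ^ 6 * z ^ 0) * a ^ 4 * b ^ 2 +
      (4571136 / 5 * y ^ 0 * z ^ 6 +
        17004544 / 5 * y ^ 1 * z ^ 5 +
        23862016 / 5 * y ^ 2 * z ^ 4 +
        15332032 / 5 * y ^ 3 * z ^ 3 +
        4267808 / 5 * y ^ 4 * z ^ 2 +
        384344 / 5 * y ^ 5 * z ^ 1 +
        4288 * y ^ 6 * z ^ 0) * a ^ 5 * b ^ 1 +
      (3264512 / 25 * y ^ 0 * z ^ 6 +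
        11982848 / 25 * y ^ 1 * z ^ 5 +
        16416256 / 25 * y ^ 2 * z ^ 4 +
        10075328 / 25 * y ^ 3 * z ^ 3 +
        508064 / 5 * y ^ 4 * z ^ 2 +
        188972 / 25 * y ^ 5 * z ^ 1 +
        1076 * y ^ 6 * z ^ 0) * a ^ 6 * b ^ 0 := by
    intro a b y z _ _ _ _
    positivity
  refine (k _ _ _ _ (sub_nonneg.2 h1) (sub_nonneg.2 h2) (sub_nonneg.2 h3) (sub_nonneg.2 h4)).trans_eq ?_
  unfold p2
  ring

theorem p2_5 {w e : ℝ} (h1 : 3 / 4 ≤ w) (h2 : w ≤ 1) (h3 : 0 ≤ e) (h4 : e ≤ 1 / 2) :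
    0 ≤ p2 w e := by
  have k : ∀ a b y z : ℝ, 0 ≤ a → 0 ≤ b → 0 ≤ y → 0 ≤ z → 0 ≤
      (3264512 / 25 * y ^ 0 * z ^ 6 +
        11982848 / 25 * y ^ 1 * z ^ 5 +
        16416256 / 25 * y ^ 2 * z ^ 4 +
        10075328 / 25 * y ^ 3 * z ^ 3 +
        508064 / 5 * y ^ 4 * z ^ 2 +
        188972 / 25 * y ^ 5 * z ^ 1 +
        1076 * y ^ 6 * z ^ 0) * a ^ 0 * b ^ 6 +
      (16318464 / 25 * y ^ 0 * z ^ 6 +
        58771456 / 25 * y ^ 1 * z ^ 5 +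
        77684992 / 25 * y ^ 2 * z ^ 4 +
        44243776 / 25 * y ^ 3 * z ^ 3 +
        365792 * y ^ 4 * z ^ 2 +
        345944 / 25 * y ^ 5 * z ^ 1 +
        8624 * y ^ 6 * z ^ 0) * a ^ 1 * b ^ 5 +
      (32628736 / 25 * y ^ 0 * z ^ 6 +
        115001344 / 25 * y ^ 1 * z ^ 5 +
        29176832 / 5 * y ^ 2 * z ^ 4 +
        76035712 / 25 * y ^ 3 * z ^ 3 +
        12184512 / 25 * y ^ 4 * z ^ 2 +
        571424 / 25 * y ^ 5 * z ^ 1 +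
        913872 / 25 * y ^ 6 * z ^ 0) * a ^ 2 * b ^ 4 +
      (32620544 / 25 * y ^ 0 * z ^ 6 +
        112203776 / 25 * y ^ 1 * z ^ 5 +
        136015104 / 25 * y ^ 2 * z ^ 4 +
        64661504 / 25 * y ^ 3 * z ^ 3 +
        9021952 / 25 * y ^ 4 * z ^ 2 +
        2841472 / 25 * y ^ 5 * z ^ 1 +
        2050112 / 25 * y ^ 6 * z ^ 0) * a ^ 3 * b ^ 3 +
      (16306176 / 25 * y ^ 0 * z ^ 6 +
        54575104 / 25 * y ^ 1 * z ^ 5 +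
        63347712 / 25 * y ^ 2 * z ^ 4 +
        5812224 / 5 * y ^ 3 * z ^ 3 +
        7241984 / 25 * y ^ 4 * z ^ 2 +
        5660672 / 25 * y ^ 5 * z ^ 1 +
        2401024 / 25 * y ^ 6 * z ^ 0) * a ^ 4 * b ^ 2 +
      (3260416 / 25 * y ^ 0 * z ^ 6 +
        10584064 / 25 * y ^ 1 * z ^ 5 +
        12259328 / 25 * y ^ 2 * z ^ 4 +
        7512064 / 25 * y ^ 3 * z ^ 3 +
        1133568 / 5 * y ^ 4 * z ^ 2 +
        4478976 / 25 * y ^ 5 * z ^ 1 +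
        277504 / 5 * y ^ 6 * z ^ 0) * a ^ 5 * b ^ 1 +
      (311296 / 25 * y ^ 2 * z ^ 4 +
        1245184 / 25 * y ^ 3 * z ^ 3 +
        1867776 / 25 * y ^ 4 * z ^ 2 +
        1245184 / 25 * y ^ 5 * z ^ 1 +
        311296 / 25 * y ^ 6 * z ^ 0) * a ^ 6 * b ^ 0 := by
    intro a b y z _ _ _ _
    positivity
  refine (k _ _ _ _ (sub_nonneg.2 h1) (sub_nonneg.2 h2) (sub_nonneg.2 h3) (sub_nonneg.2 h4)).trans_eq ?_
  unfold p2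
  ring

theorem p2_6 {w e : ℝ} (h1 : 1 / 2 ≤ w) (h2 : w ≤ 5 / 8) (h3 : 1 / 2 ≤ e) (h4 : e ≤ 5 / 8) :
    0 ≤ p2 w e := by
  have k : ∀ a b y z : ℝ, 0 ≤ a → 0 ≤ b → 0 ≤ y → 0 ≤ z → 0 ≤
      (48184164352 / 25 * y ^ 0 * z ^ 6 +
        206393311232 / 25 * y ^ 1 * z ^ 5 +
        360911470592 / 25 * y ^ 2 * z ^ 4 +
        335842115584 / 25 * y ^ 3 * z ^ 3 +
        183313629184 / 25 * y ^ 4 * z ^ 2 +
        59884568576 / 25 * y ^ 5 * z ^ 1 +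
        9711058944 / 25 * y ^ 6 * z ^ 0) * a ^ 0 * b ^ 6 +
      (246255976448 / 25 * y ^ 0 * z ^ 6 +
        1022860722176 / 25 * y ^ 1 * z ^ 5 +
        1722582827008 / 25 * y ^ 2 * z ^ 4 +
        1542529220608 / 25 * y ^ 3 * z ^ 3 +
        165455069184 / 5 * y ^ 4 * z ^ 2 +
        280523063296 / 25 * y ^ 5 * z ^ 1 +
        49800638464 / 25 * y ^ 6 * z ^ 0) * a ^ 1 * b ^ 5 +
      (103259570176 / 5 * y ^ 0 * z ^ 6 +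
        2065548967936 / 25 * y ^ 1 * z ^ 5 +
        663530504192 / 5 * y ^ 2 * z ^ 4 +
        2832801071104 / 25 * y ^ 3 * z ^ 3 +
        1504327221248 / 25 * y ^ 4 * z ^ 2 +
        550896144384 / 25 * y ^ 5 * z ^ 1 +
        110972594176 / 25 * y ^ 6 * z ^ 0) * a ^ 2 * b ^ 4 +
      (568246403072 / 25 * y ^ 0 * z ^ 6 +
        2172654190592 / 25 * y ^ 1 * z ^ 5 +
        3289997115392 / 25 * y ^ 2 * z ^ 4 +
        2657373978624 / 25 * y ^ 3 * z ^ 3 +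
        1435790352384 / 25 * y ^ 4 * z ^ 2 +
        605646923776 / 25 * y ^ 5 * z ^ 1 +
        141645983744 / 25 * y ^ 6 * z ^ 0) * a ^ 3 * b ^ 3 +
      (346662895616 / 25 * y ^ 0 * z ^ 6 +
        50272927744 * y ^ 1 * z ^ 5 +
        1774773436416 / 25 * y ^ 2 * z ^ 4 +
        1360946659328 / 25 * y ^ 3 * z ^ 3 +
        802889754624 / 25 * y ^ 4 * z ^ 2 +
        417890566144 / 25 * y ^ 5 * z ^ 1 +
        111337494656 / 25 * y ^ 6 * z ^ 0) * a ^ 4 * b ^ 2 +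
      (111584739328 / 25 * y ^ 0 * z ^ 6 +
        76362498048 / 5 * y ^ 1 * z ^ 5 +
        502375600128 / 25 * y ^ 2 * z ^ 4 +
        382871128064 / 25 * y ^ 3 * z ^ 3 +
        278797998592 / 25 * y ^ 4 * z ^ 2 +
        178930033472 / 25 * y ^ 5 * z ^ 1 +
        50856426128 / 25 * y ^ 6 * z ^ 0) * a ^ 5 * b ^ 1 +
      (2988326912 / 5 * y ^ 0 * z ^ 6 +
        1942310912 * y ^ 1 * z ^ 5 +
        12321114112 / 5 * y ^ 2 * z ^ 4 +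
        10632864256 / 5 * y ^ 3 * z ^ 3 +
        10262978368 / 5 * y ^ 4 * z ^ 2 +
        7283998288 / 5 * y ^ 5 * z ^ 1 +
        2056030112 / 5 * y ^ 6 * z ^ 0) * a ^ 6 * b ^ 0 := by
    intro a b y z _ _ _ _
    positivity
  refine (k _ _ _ _ (sub_nonneg.2 h1) (sub_nonneg.2 h2) (sub_nonneg.2 h3) (sub_nonneg.2 h4)).trans_eq ?_
  unfold p2
  ring

theorem p2_7 {w e : ℝ} (h1 : 1 / 2 ≤ w) (h2 : w ≤ 5 / 8) (h3 : 5 / 8 ≤ e) (h4 : e ≤ 3 / 4) :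
    0 ≤ p2 w e := by
  have k : ∀ a b y z : ℝ, 0 ≤ a → 0 ≤ b → 0 ≤ y → 0 ≤ z → 0 ≤
      (9711058944 / 25 * y ^ 0 * z ^ 6 +
        56648138752 / 25 * y ^ 1 * z ^ 5 +
        167131480064 / 25 * y ^ 2 * z ^ 4 +
        289053605888 / 25 * y ^ 3 * z ^ 3 +
        285274537984 / 25 * y ^ 4 * z ^ 2 +
        146941149184 / 25 * y ^ 5 * z ^ 1 +
        30526144512 / 25 * y ^ 6 * z ^ 0) * a ^ 0 * b ^ 6 +
      (49800638464 / 25 * y ^ 0 * z ^ 6 +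
        317084598272 / 25 * y ^ 1 * z ^ 5 +
        40403320832 * y ^ 2 * z ^ 4 +
        1822853169152 / 25 * y ^ 3 * z ^ 3 +
        366464794624 / 5 * y ^ 4 * z ^ 2 +
        949808529408 / 25 * y ^ 5 * z ^ 1 +
        197540446208 / 25 * y ^ 6 * z ^ 0) * a ^ 1 * b ^ 5 +
      (110972594176 / 25 * y ^ 0 * z ^ 6 +
        780774985728 / 25 * y ^ 1 * z ^ 5 +
        2653721427968 / 25 * y ^ 2 * z ^ 4 +
        984317198336 / 5 * y ^ 3 * z ^ 3 +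
        4986430455808 / 25 * y ^ 4 * z ^ 2 +
        2584965873664 / 25 * y ^ 5 * z ^ 1 +
        107241275392 / 5 * y ^ 6 * z ^ 0) * a ^ 2 * b ^ 4 +
      (141645983744 / 25 * y ^ 0 * z ^ 6 +
        1094104881152 / 25 * y ^ 1 * z ^ 5 +
        3878080139264 / 25 * y ^ 2 * z ^ 4 +
        7266429288448 / 25 * y ^ 3 * z ^ 3 +
        7348003897344 / 25 * y ^ 4 * z ^ 2 +
        3788412780544 / 25 * y ^ 5 * z ^ 1 +
        781221691392 / 25 * y ^ 6 * z ^ 0) * a ^ 3 * b ^ 3 +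
      (111337494656 / 25 * y ^ 0 * z ^ 6 +
        918159369728 / 25 * y ^ 1 * z ^ 5 +
        3304233772544 / 25 * y ^ 2 * z ^ 4 +
        6160547876864 / 25 * y ^ 3 * z ^ 3 +
        6168201017344 / 25 * y ^ 4 * z ^ 2 +
        3148936470528 / 25 * y ^ 5 * z ^ 1 +
        643874594816 / 25 * y ^ 6 * z ^ 0) * a ^ 4 * b ^ 2 +
      (50856426128 / 25 * y ^ 0 * z ^ 6 +
        431347080064 / 25 * y ^ 1 * z ^ 5 +
        1540883231552 / 25 * y ^ 2 * z ^ 4 +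
        2827339702272 / 25 * y ^ 3 * z ^ 3 +
        2787440390912 / 25 * y ^ 4 * z ^ 2 +
        1404803467264 / 25 * y ^ 5 * z ^ 1 +
        284311313408 / 25 * y ^ 6 * z ^ 0) * a ^ 5 * b ^ 1 +
      (2056030112 / 5 * y ^ 0 * z ^ 6 +
        17388363056 / 5 * y ^ 1 * z ^ 5 +
        60784802208 / 5 * y ^ 2 * z ^ 4 +
        109075849088 / 5 * y ^ 3 * z ^ 3 +
        105562773248 / 5 * y ^ 4 * z ^ 2 +
        52431757056 / 5 * y ^ 5 * z ^ 1 +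
        10492396032 / 5 * y ^ 6 * z ^ 0) * a ^ 6 * b ^ 0 := by
    intro a b y z _ _ _ _
    positivity
  refine (k _ _ _ _ (sub_nonneg.2 h1) (sub_nonneg.2 h2) (sub_nonneg.2 h3) (sub_nonneg.2 h4)).trans_eq ?_
  unfold p2
  ring

theorem p2_8 {w e : ℝ} (h1 : 5 / 8 ≤ w) (h2 : w ≤ 3 / 4) (h3 : 1 / 2 ≤ e) (h4 : e ≤ 5 / 8) :
    0 ≤ p2 w e := by
  have k : ∀ a b y z : ℝ, 0 ≤ a → 0 ≤ b → 0 ≤ y → 0 ≤ z → 0 ≤
      (2988326912 / 5 * y ^ 0 * z ^ 6 +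
        1942310912 * y ^ 1 * z ^ 5 +
        12321114112 / 5 * y ^ 2 * z ^ 4 +
        10632864256 / 5 * y ^ 3 * z ^ 3 +
        10262978368 / 5 * y ^ 4 * z ^ 2 +
        7283998288 / 5 * y ^ 5 * z ^ 1 +
        2056030112 / 5 * y ^ 6 * z ^ 0) * a ^ 0 * b ^ 6 +
      (67714875392 / 25 * y ^ 0 * z ^ 6 +
        40176156672 / 5 * y ^ 1 * z ^ 5 +
        236891246592 / 25 * y ^ 2 * z ^ 4 +
        255100727296 / 25 * y ^ 3 * z ^ 3 +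
        336980703488 / 25 * y ^ 4 * z ^ 2 +
        258109863808 / 25 * y ^ 5 * z ^ 1 +
        72505380592 / 25 * y ^ 6 * z ^ 0) * a ^ 1 * b ^ 5 +
      (127313575936 / 25 * y ^ 0 * z ^ 6 +
        14086586368 * y ^ 1 * z ^ 5 +
        447351668736 / 25 * y ^ 2 * z ^ 4 +
        722094655488 / 25 * y ^ 3 * z ^ 3 +
        1093803279104 / 25 * y ^ 4 * z ^ 2 +
        813789717824 / 25 * y ^ 5 * z ^ 1 +
        219582266976 / 25 * y ^ 6 * z ^ 0) * a ^ 2 * b ^ 4 +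
      (132328718336 / 25 * y ^ 0 * z ^ 6 +
        378675396608 / 25 * y ^ 1 * z ^ 5 +
        670057660416 / 25 * y ^ 2 * z ^ 4 +
        284329115648 / 5 * y ^ 3 * z ^ 3 +
        2045790435328 / 25 * y ^ 4 * z ^ 2 +
        1407474896896 / 25 * y ^ 5 * z ^ 1 +
        359621017984 / 25 * y ^ 6 * z ^ 0) * a ^ 3 * b ^ 3 +
      (85942075392 / 25 * y ^ 0 * z ^ 6 +
        302246723584 / 25 * y ^ 1 * z ^ 5 +
        767521226752 / 25 * y ^ 2 * z ^ 4 +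
        1681023885312 / 25 * y ^ 3 * z ^ 3 +
        434134674432 / 5 * y ^ 4 * z ^ 2 +
        1372783457024 / 25 * y ^ 5 * z ^ 1 +
        331918607616 / 25 * y ^ 6 * z ^ 0) * a ^ 4 * b ^ 2 +
      (1408237568 * y ^ 0 * z ^ 6 +
        163920216064 / 25 * y ^ 1 * z ^ 5 +
        99806674944 / 5 * y ^ 2 * z ^ 4 +
        1028339859456 / 25 * y ^ 3 * z ^ 3 +
        1201640804352 / 25 * y ^ 4 * z ^ 2 +
        706032224256 / 25 * y ^ 5 * z ^ 1 +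
        162412579584 / 25 * y ^ 6 * z ^ 0) * a ^ 5 * b ^ 1 +
      (282066944 * y ^ 0 * z ^ 6 +
        40503083008 / 25 * y ^ 1 * z ^ 5 +
        25898254336 / 5 * y ^ 2 * z ^ 4 +
        248783142912 / 25 * y ^ 3 * z ^ 3 +
        268602200064 / 25 * y ^ 4 * z ^ 2 +
        148615068672 / 25 * y ^ 5 * z ^ 1 +
        32756203008 / 25 * y ^ 6 * z ^ 0) * a ^ 6 * b ^ 0 := by
    intro a b y z _ _ _ _
    positivity
  refine (k _ _ _ _ (sub_nonneg.2 h1) (sub_nonneg.2 h2) (sub_nonneg.2 h3) (sub_nonneg.2 h4)).trans_eq ?_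
  unfold p2
  ring

theorem p2_9 {w e : ℝ} (h1 : 5 / 8 ≤ w) (h2 : w ≤ 3 / 4) (h3 : 5 / 8 ≤ e) (h4 : e ≤ 3 / 4) :
    0 ≤ p2 w e := by
  have k : ∀ a b y z : ℝ, 0 ≤ a → 0 ≤ b → 0 ≤ y → 0 ≤ z → 0 ≤
      (2056030112 / 5 * y ^ 0 * z ^ 6 +
        17388363056 / 5 * y ^ 1 * z ^ 5 +
        60784802208 / 5 * y ^ 2 * z ^ 4 +
        109075849088 / 5 * y ^ 3 * z ^ 3 +
        105562773248 / 5 * y ^ 4 * z ^ 2 +
        52431757056 / 5 * y ^ 5 * z ^ 1 +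
        10492396032 / 5 * y ^ 6 * z ^ 0) * a ^ 0 * b ^ 6 +
      (72505380592 / 25 * y ^ 0 * z ^ 6 +
        611954703296 / 25 * y ^ 1 * z ^ 5 +
        2106204900928 / 25 * y ^ 2 * z ^ 4 +
        3717211243008 / 25 * y ^ 3 * z ^ 3 +
        3546326003968 / 25 * y ^ 4 * z ^ 2 +
        1741101956096 / 25 * y ^ 5 * z ^ 1 +
        345232448512 / 25 * y ^ 6 * z ^ 0) * a ^ 1 * b ^ 5 +
      (219582266976 / 25 * y ^ 0 * z ^ 6 +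
        1821197485888 / 25 * y ^ 1 * z ^ 5 +
        6130842119424 / 25 * y ^ 2 * z ^ 4 +
        10609905580544 / 25 * y ^ 3 * z ^ 3 +
        9962629082624 / 25 * y ^ 4 * z ^ 2 +
        4830428914688 / 25 * y ^ 5 * z ^ 1 +
        948480270336 / 25 * y ^ 6 * z ^ 0) * a ^ 2 * b ^ 4 +
      (359621017984 / 25 * y ^ 0 * z ^ 6 +
        2907977318912 / 25 * y ^ 1 * z ^ 5 +
        9548302545408 / 25 * y ^ 2 * z ^ 4 +
        16185044905984 / 25 * y ^ 3 * z ^ 3 +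
        14950207203328 / 25 * y ^ 4 * z ^ 2 +
        1431269187584 / 5 * y ^ 5 * z ^ 1 +
        1391239356416 / 25 * y ^ 6 * z ^ 0) * a ^ 3 * b ^ 3 +
      (331918607616 / 25 * y ^ 0 * z ^ 6 +
        2610239834368 / 25 * y ^ 1 * z ^ 5 +
        1671591051776 / 5 * y ^ 2 * z ^ 4 +
        13880002029568 / 25 * y ^ 3 * z ^ 3 +
        2523065622528 / 5 * y ^ 4 * z ^ 2 +
        5962795569152 / 25 * y ^ 5 * z ^ 1 +
        1147836669952 / 25 * y ^ 6 * z ^ 0) * a ^ 4 * b ^ 2 +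
      (162412579584 / 25 * y ^ 0 * z ^ 6 +
        1242918730752 / 25 * y ^ 1 * z ^ 5 +
        3886073336832 / 25 * y ^ 2 * z ^ 4 +
        1265902067712 / 5 * y ^ 3 * z ^ 3 +
        5664814682112 / 25 * y ^ 4 * z ^ 2 +
        2645278048256 / 25 * y ^ 5 * z ^ 1 +
        100881383424 / 5 * y ^ 6 * z ^ 0) * a ^ 5 * b ^ 1 +
      (32756203008 / 25 * y ^ 0 * z ^ 6 +
        244459367424 / 25 * y ^ 1 * z ^ 5 +
        747823693824 / 25 * y ^ 2 * z ^ 4 +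
        47856967680 * y ^ 3 * z ^ 3 +
        1055528443904 / 25 * y ^ 4 * z ^ 2 +
        487320174592 / 25 * y ^ 5 * z ^ 1 +
        18419089408 / 5 * y ^ 6 * z ^ 0) * a ^ 6 * b ^ 0 := by
    intro a b y z _ _ _ _
    positivity
  refine (k _ _ _ _ (sub_nonneg.2 h1) (sub_nonneg.2 h2) (sub_nonneg.2 h3) (sub_nonneg.2 h4)).trans_eq ?_
  unfold p2
  ring

theorem p2_10 {w e : ℝ} (h1 : 1 / 2 ≤ w) (h2 : w ≤ 3 / 4) (h3 : 3 / 4 ≤ e) (h4 : e ≤ 1) :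
    0 ≤ p2 w e := by
  have k : ∀ a b y z : ℝ, 0 ≤ a → 0 ≤ b → 0 ≤ y → 0 ≤ z → 0 ≤
      (7452672 / 25 * y ^ 0 * z ^ 6 +
        62399488 / 25 * y ^ 1 * z ^ 5 +
        208470016 / 25 * y ^ 2 * z ^ 4 +
        345571328 / 25 * y ^ 3 * z ^ 3 +
        298483712 / 25 * y ^ 4 * z ^ 2 +
        126877696 / 25 * y ^ 5 * z ^ 1 +
        20447232 / 25 * y ^ 6 * z ^ 0) * a ^ 0 * b ^ 6 +
      (51739264 / 25 * y ^ 0 * z ^ 6 +
        434251008 / 25 * y ^ 1 * z ^ 5 +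
        1436191744 / 25 * y ^ 2 * z ^ 4 +
        471547904 / 5 * y ^ 3 * z ^ 3 +
        404799488 / 5 * y ^ 4 * z ^ 2 +
        171769856 / 5 * y ^ 5 * z ^ 1 +
        27787264 / 5 * y ^ 6 * z ^ 0) * a ^ 1 * b ^ 5 +
      (30630528 / 5 * y ^ 0 * z ^ 6 +
        1269493888 / 25 * y ^ 1 * z ^ 5 +
        4130083328 / 25 * y ^ 2 * z ^ 4 +
        6693318656 / 25 * y ^ 3 * z ^ 3 +
        5699149824 / 25 * y ^ 4 * z ^ 2 +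
        2410381312 / 25 * y ^ 5 * z ^ 1 +
        390856704 / 25 * y ^ 6 * z ^ 0) * a ^ 2 * b ^ 4 +
      (246766976 / 25 * y ^ 0 * z ^ 6 +
        1997862272 / 25 * y ^ 1 * z ^ 5 +
        6363506176 / 25 * y ^ 2 * z ^ 4 +
        2031239168 / 5 * y ^ 3 * z ^ 3 +
        1713074176 / 5 * y ^ 4 * z ^ 2 +
        144310272 * y ^ 5 * z ^ 1 +
        117243904 / 5 * y ^ 6 * z ^ 0) * a ^ 3 * b ^ 3 +
      (226735648 / 25 * y ^ 0 * z ^ 6 +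
        1782313728 / 25 * y ^ 1 * z ^ 5 +
        1109081088 / 5 * y ^ 2 * z ^ 4 +
        8708122624 / 25 * y ^ 3 * z ^ 3 +
        7273209856 / 25 * y ^ 4 * z ^ 2 +
        3052699648 / 25 * y ^ 5 * z ^ 1 +
        497811456 / 25 * y ^ 6 * z ^ 0) * a ^ 4 * b ^ 2 +
      (4455480 * y ^ 0 * z ^ 6 +
        169876496 / 5 * y ^ 1 * z ^ 5 +
        103313856 * y ^ 2 * z ^ 4 +
        798931968 / 5 * y ^ 3 * z ^ 3 +
        661825536 / 5 * y ^ 4 * z ^ 2 +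
        277426176 / 5 * y ^ 5 * z ^ 1 +
        45563904 / 5 * y ^ 6 * z ^ 0) * a ^ 5 * b ^ 1 +
      (4496848 / 5 * y ^ 0 * z ^ 6 +
        166767016 / 25 * y ^ 1 * z ^ 5 +
        496922336 / 25 * y ^ 2 * z ^ 4 +
        758760192 / 25 * y ^ 3 * z ^ 3 +
        624964608 / 25 * y ^ 4 * z ^ 2 +
        262416384 / 25 * y ^ 5 * z ^ 1 +
        43573248 / 25 * y ^ 6 * z ^ 0) * a ^ 6 * b ^ 0 := by
    intro a b y z _ _ _ _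
    positivity
  refine (k _ _ _ _ (sub_nonneg.2 h1) (sub_nonneg.2 h2) (sub_nonneg.2 h3) (sub_nonneg.2 h4)).trans_eq ?_
  unfold p2
  ring

theorem p2_11 {w e : ℝ} (h1 : 3 / 4 ≤ w) (h2 : w ≤ 1) (h3 : 1 / 2 ≤ e) (h4 : e ≤ 1) :
    0 ≤ p2 w e := by
  have k : ∀ a b y z : ℝ, 0 ≤ a → 0 ≤ b → 0 ≤ y → 0 ≤ z → 0 ≤
      (1076 * y ^ 0 * z ^ 6 +
        133828 / 25 * y ^ 1 * z ^ 5 +
        90584 * y ^ 2 * z ^ 4 +
        6992352 / 25 * y ^ 3 * z ^ 3 +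
        8270208 / 25 * y ^ 4 * z ^ 2 +
        823104 / 5 * y ^ 5 * z ^ 1 +
        680832 / 25 * y ^ 6 * z ^ 0) * a ^ 0 * b ^ 6 +
      (8624 * y ^ 0 * z ^ 6 +
        2241256 / 25 * y ^ 1 * z ^ 5 +
        3724272 / 5 * y ^ 2 * z ^ 4 +
        49572864 / 25 * y ^ 3 * z ^ 3 +
        55766016 / 25 * y ^ 4 * z ^ 2 +
        5479296 / 5 * y ^ 5 * z ^ 1 +
        4610304 / 25 * y ^ 6 * z ^ 0) * a ^ 1 * b ^ 5 +
      (913872 / 25 * y ^ 0 * z ^ 6 +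
        2079008 / 5 * y ^ 1 * z ^ 5 +
        61302592 / 25 * y ^ 2 * z ^ 4 +
        144802944 / 25 * y ^ 3 * z ^ 3 +
        155713536 / 25 * y ^ 4 * z ^ 2 +
        15152128 / 5 * y ^ 5 * z ^ 1 +
        13031424 / 25 * y ^ 6 * z ^ 0) * a ^ 2 * b ^ 4 +
      (2050112 / 25 * y ^ 0 * z ^ 6 +
        21759872 / 25 * y ^ 1 * z ^ 5 +
        103613952 / 25 * y ^ 2 * z ^ 4 +
        221873152 / 25 * y ^ 3 * z ^ 3 +
        229282048 / 25 * y ^ 4 * z ^ 2 +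
        4436992 * y ^ 5 * z ^ 1 +
        19612672 / 25 * y ^ 6 * z ^ 0) * a ^ 3 * b ^ 3 +
      (2401024 / 25 * y ^ 0 * z ^ 6 +
        23151616 / 25 * y ^ 1 * z ^ 5 +
        94696704 / 25 * y ^ 2 * z ^ 4 +
        186611712 / 25 * y ^ 3 * z ^ 3 +
        186180608 / 25 * y ^ 4 * z ^ 2 +
        17993728 / 5 * y ^ 5 * z ^ 1 +
        16453632 / 25 * y ^ 6 * z ^ 0) * a ^ 4 * b ^ 2 +
      (277504 / 5 * y ^ 0 * z ^ 6 +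
        12171264 / 25 * y ^ 1 * z ^ 5 +
        8825856 / 5 * y ^ 2 * z ^ 4 +
        80674816 / 25 * y ^ 3 * z ^ 3 +
        77901824 / 25 * y ^ 4 * z ^ 2 +
        7553024 / 5 * y ^ 5 * z ^ 1 +
        7192576 / 25 * y ^ 6 * z ^ 0) * a ^ 5 * b ^ 1 +
      (311296 / 25 * y ^ 0 * z ^ 6 +
        2490368 / 25 * y ^ 1 * z ^ 5 +
        8093696 / 25 * y ^ 2 * z ^ 4 +
        13697024 / 25 * y ^ 3 * z ^ 3 +
        12763136 / 25 * y ^ 4 * z ^ 2 +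
        1245184 / 5 * y ^ 5 * z ^ 1 +
        1245184 / 25 * y ^ 6 * z ^ 0) * a ^ 6 * b ^ 0 := by
    intro a b y z _ _ _ _
    positivity
  refine (k _ _ _ _ (sub_nonneg.2 h1) (sub_nonneg.2 h2) (sub_nonneg.2 h3) (sub_nonneg.2 h4)).trans_eq ?_
  unfold p2
  ring

theorem p2_nonneg {w e : ℝ} (h1 : 0 ≤ w) (h2 : w ≤ 1) (h3 : 0 ≤ e) (h4 : e ≤ 1) :
    0 ≤ p2 w e := by
  rcases le_total w (1 / 2) with g2 | g2
  · rcases le_total e (1 / 2) with g4 | g4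
    · exact p2_0 h1 g2 h3 g4
    · rcases le_total w (1 / 4) with g6 | g6
      · exact p2_1 h1 g6 g4 h4
      · rcases le_total e (3 / 4) with g8 | g8
        · exact p2_2 g6 g2 g4 g8
        · exact p2_3 g6 g2 g8 h4
  · rcases le_total e (1 / 2) with g4 | g4
    · rcases le_total w (3 / 4) with g6 | g6
      · exact p2_4 g2 g6 h3 g4
      · exact p2_5 g6 h2 h3 g4
    · rcases le_total w (3 / 4) with g6 | g6
      · rcases le_total e (3 / 4) with g8 | g8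
        · rcases le_total w (5 / 8) with g10 | g10
          · rcases le_total e (5 / 8) with g12 | g12
            · exact p2_6 g2 g10 g4 g12
            · exact p2_7 g2 g10 g12 g8
          · rcases le_total e (5 / 8) with g12 | g12
            · exact p2_8 g10 g6 g4 g12
            · exact p2_9 g10 g6 g12 g8
        · exact p2_10 g2 g6 g8 h4
      · exact p2_11 g6 h2 g4 h4

end Pool.Agent.MP_815c6c_an.Lam
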