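import Mathlib.Algebra.BigOperators.Field
import Mathlib.Tactic.LinearCombination
import Mathlib.Algebra.Order.Star.Real
import Pool.Agent.MP_815c6c_an.lam.Cert

/-! The first order inequality for systems: the dual certificate, pointwise in the parameter. -/

set_option autoImplicit false

noncomputable section

namespace Pool.Agent.MP_815c6c_an.Lam

open Finset

variable {ι κ : Type*} [Fintype ι] [DecidableEq ι] [Fintype κ]

/-- eigenvalues `s`, squared entries `B`, diagonal entries `h`. -/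
structure Dat (i₀ : ι) (s : ι → ℝ) (B : ι → ι → ℝ) (h : κ → ι → ℝ) : Prop where
  one : s i₀ = 1
  le : ∀ i, s i ≤ 1
  sym : ∀ i j, B i j = B j i
  pos : ∀ i j, 0 ≤ B i j
  sum : ∀ i, ∑ j, B i j = s i
  diag : ∀ i, B i i = ∑ a, h a i ^ 2

/-- the weights -/
def ww (s : ι → ℝ) (τ : ℝ) (i : ι) : ℝ := s i / (1 + τ * s i)

/-- the bracket -/
def Br (B : ι → ι → ℝ) (h : κ → ι → ℝ) (w : ι → ℝ) : ℝ :=
  (∑ i, ∑ j, B i j * (w i - w j) ^ 2) / 2 - (∑ a, (∑ i, w i * h a i) ^ 2) / 2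

variable {i₀ : ι} {s : ι → ℝ} {B : ι → ι → ℝ} {h : κ → ι → ℝ}

theorem Dat.nonneg (H : Dat i₀ s B h) (i : ι) : 0 ≤ s i :=
  H.sum i ▸ sum_nonneg fun j _ => H.pos i j

theorem Dat.dual (H : Dat i₀ s B h) {w y : ι → ℝ}
    (h1 : ∀ i j, i ≠ j → (w i - w j) ^ 2 ≤ y i + y j)
    (h2 : ∀ a : ι → ℝ, 0 ≤ ∑ i, y i * a i ^ 2 + (∑ i, w i * a i) ^ 2 / 2) :
    Br B h w ≤ ∑ i, s i * y i := by
  have a : ∑ i, ∑ j, B i j * (w i - w j) ^ 2 ≤
      ∑ i, ∑ j, (B i j * y i + B j i * y j - if i = j then 2 * (B i i * y i) else 0) := by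
    refine sum_le_sum fun i _ => sum_le_sum fun j _ => ?_
    split_ifs with e
    · subst e
      ring_nf
      rfl
    · rw [H.sym j i]
      linarith [mul_le_mul_of_nonneg_left (h1 i j e) (H.pos i j)]
  have b : ∑ i, ∑ j, B i j * y i = ∑ i, s i * y i :=
    sum_congr rfl fun i _ => by rw [← sum_mul, H.sum]
  simp only [sum_sub_distrib, sum_add_distrib, sum_ite_eq, mem_univ, if_true] at a
  rw [sum_comm (f := fun i j => B j i * y j), b, ← mul_sum] at a
  have c : ∑ i, B i i * y i = ∑ a, ∑ i, y i * h a i ^ 2 := by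
    rw [sum_comm]
    exact sum_congr rfl fun i _ => by rw [H.diag, ← mul_sum, mul_comm]
  have d := sum_nonneg fun a (_ : a ∈ (univ : Finset κ)) => h2 (h a)
  rw [sum_add_distrib, ← sum_div, ← c] at d
  unfold Br
  linarith

theorem den_pos {τ t : ℝ} (hτ : 0 ≤ τ) (ht : 0 ≤ t) : 0 < 1 + τ * t := by positivity

theorem frac_mono {τ a b : ℝ} (hτ : 0 ≤ τ) (ha : 0 ≤ a) (hab : a ≤ b) :
    a / (1 + τ * a) ≤ b / (1 + τ * b) := by
  rw [div_le_div_iff₀ (den_pos hτ ha) (den_pos hτ (ha.trans hab))]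
  nlinarith

theorem frac_id {τ a : ℝ} (hτ : 0 ≤ τ) (ha : 0 ≤ a) :
    τ * (a * (a / (1 + τ * a))) = a - a / (1 + τ * a) := by
  have := den_pos hτ ha
  field_simp
  ring

/-- `a/(1+τa) - a/(1+τb) ≥ a τ (b - c)/(1+τ)^2` for `a ≤ b ≤ 1`, `a ≤ c`. -/
theorem frac_gap {τ a b c : ℝ} (hτ : 0 ≤ τ) (ha : 0 ≤ a) (hab : a ≤ b) (hb : b ≤ 1)
    (hc : a ≤ c) : a * (τ * (b - c) * (1 / (1 + τ)) ^ 2) ≤
      a / (1 + τ * a) - a * (1 / (1 + τ * b)) := by
  have p1 := den_pos hτ ha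
  have p2 := den_pos hτ (ha.trans hab)
  have e : a / (1 + τ * a) - a * (1 / (1 + τ * b)) =
      a * (τ * (b - a) * (1 / (1 + τ * a) * (1 / (1 + τ * b)))) := by
    field_simp
    ring
  have u : ∀ t, 0 ≤ t → t ≤ 1 → 1 / (1 + τ) ≤ 1 / (1 + τ * t) := fun t t0 t1 =>
    one_div_le_one_div_of_le (den_pos hτ t0) (by nlinarith)
  have w0 : 0 ≤ 1 / (1 + τ) := by positivity
  rw [e]
  refine mul_le_mul_of_nonneg_left ?_ ha
  calc τ * (b - c) * (1 / (1 + τ)) ^ 2 ≤ τ * (b - a) * (1 / (1 + τ)) ^ 2 :=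
        mul_le_mul_of_nonneg_right (mul_le_mul_of_nonneg_left (by linarith) hτ) (sq_nonneg _)
    _ ≤ _ := by
        refine mul_le_mul_of_nonneg_left ?_ (mul_nonneg hτ (sub_nonneg.2 hab))
        rw [sq]
        exact mul_le_mul (u a ha (hab.trans hb)) (u b (ha.trans hab) hb) w0 (by positivity)

theorem Dat.w0 (H : Dat i₀ s B h) (τ : ℝ) : ww s τ i₀ = 1 / (1 + τ) := by
  rw [ww, H.one, mul_one]

/-- the case where the largest eigenvalue is at most the sum of the others. -/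
theorem Dat.big (H : Dat i₀ s B h) {a τ σ w W : ℝ} (ha : ∀ j, j ≠ i₀ → s j ≤ a) (ha1 : a ≤ 1)
    (hτ : 0 ≤ τ) (hσ : σ = ∑ j ∈ univ.erase i₀, s j) (hw : w = 1 / (1 + τ))
    (hW : W = ∑ j ∈ univ.erase i₀, ww s τ j) (h1 : 1 ≤ σ) :
    τ * Br B h (ww s τ) + τ * w ^ 3 * (σ - a) / 2 ≤
      -((1 + σ) * w ^ 2 / 2) + (w + W) * (w + W - (1 + σ) * w / 2) / 2 ∧ 0 ≤ σ - a := by
  have w0 : 0 < w := by rw [hw]; positivity
  have tw : τ * w = 1 - w := by rw [hw]; field_simp; ring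
  have le : ∀ i, ww s τ i ≤ w := fun i => by
    rw [hw, ← H.w0]
    exact frac_mono hτ (H.nonneg i) (H.one ▸ H.le i)
  have nn : ∀ i, 0 ≤ ww s τ i := fun i => div_nonneg (H.nonneg i) (den_pos hτ (H.nonneg i)).le
  have d := H.dual (w := ww s τ) (y := fun i => w * (w - ww s τ i))
    (fun i j _ => by
      nlinarith [mul_nonneg (nn i) (sub_nonneg.2 (le i)), mul_nonneg (nn j) (sub_nonneg.2 (le j)),
        mul_nonneg (sub_nonneg.2 (le i)) (sub_nonneg.2 (le j))])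
    (fun b => add_nonneg (sum_nonneg fun i _ =>
      mul_nonneg (mul_nonneg w0.le (sub_nonneg.2 (le i))) (sq_nonneg _)) (by positivity))
  have e : τ * ∑ i, s i * (w * (w - ww s τ i)) = w * W - σ * w ^ 2 := by
    rw [← add_sum_erase _ _ (mem_univ i₀), H.w0, ← hw, sub_self, mul_zero, mul_zero, zero_add,
      hW, hσ, mul_sum, mul_sum, sum_mul, ← sum_sub_distrib]
    refine sum_congr rfl fun j _ => ?_
    have := frac_id hτ (H.nonneg j)
    unfold ww
    linear_combination (s j * w) * tw - w * this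
  have g : σ * (τ * (1 - a) * w ^ 2) ≤ W - σ * w := by
    rw [hW, hσ, sum_mul, sum_mul, ← sum_sub_distrib]
    refine sum_le_sum fun j hj => ?_
    have := frac_gap hτ (H.nonneg j) (H.le j) le_rfl (ha j (ne_of_mem_erase hj))
    rwa [mul_one, ← hw] at this
  have g0 : 0 ≤ τ * (1 - a) * w ^ 2 := mul_nonneg (mul_nonneg hτ (sub_nonneg.2 ha1)) (sq_nonneg _)
  have g1 : τ * (1 - a) * w ^ 2 ≤ W - σ * w := by nlinarith
  have g2 : w ≤ W := by nlinarith
  have g3 : 0 ≤ (σ - 1) * w := mul_nonneg (sub_nonneg.2 h1) w0.le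
  have g4 := mul_le_mul_of_nonneg_right g2 (show 0 ≤ 2 * (W - σ * w) + (σ - 1) * w by linarith)
  have g5 := mul_le_mul_of_nonneg_left g1 w0.le
  have g6 : (σ - 1) * w * w * (τ * w) ≤ (σ - 1) * w * w * 1 :=
    mul_le_mul_of_nonneg_left (by linarith) (mul_nonneg g3 w0.le)
  refine ⟨?_, by linarith⟩
  nlinarith [mul_le_mul_of_nonneg_left d hτ]

/-- the null term in the dominant case -/
def ps (e w x : ℝ) : ℝ := (w + x) / 2 + e ^ 2 * ((1 - w) * (e * w + x) * (1 / 2 - w / 5))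

/-- its derivative -/
def ps' (e w x : ℝ) : ℝ := -((w ^ 2 + x ^ 2) / 2) + e ^ 2 * (w ^ 2 * (e * w + x) * (1 / 2 - w / 5) -
  (1 - w) * (e * w ^ 2 + x ^ 2) * (1 / 2 - w / 5) + (1 - w) * (e * w + x) * (w ^ 2 / 5))

theorem poly {e w x W τ : ℝ} (he0 : 0 ≤ e) (he1 : e ≤ 1) (hw0 : 0 < w) (hw1 : w ≤ 1)
    (hτ : τ * w = 1 - w) (hx : x * (1 - e + e * w) = (1 - e) * w) (h1 : x ≤ W) (h2 : W ≤ 1 - e) :
    τ * ((1 - e) * (w - x) ^ 2 - e * ((w ^ 2 - x ^ 2) / 2)) + (2 * w - x) * (W - x) +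
      (e ^ 2 * w ^ 3 + (1 - e) ^ 2 * w * (W - x)) / 400 ≤
      ps' e w x + (w + W) * (w + W - ps e w x) / 2 := by
  set q := 1 - e + e * w with hq
  have q0 : 0 < q := by
    rcases he1.eq_or_lt with h | h
    · rw [hq, h]; linarith
    · nlinarith [mul_nonneg he0 hw0.le]
  have q1 : q ≤ 1 := by nlinarith
  have ex : x = (1 - e) * w / q := eq_div_of_mul_eq q0.ne' hx
  have et : τ = (1 - w) / w := eq_div_of_mul_eq hw0.ne' hτ
  have eU : 1 - e - x = (1 - e) ^ 2 * (1 - w) / q := by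
    rw [ex, eq_div_iff q0.ne']
    field_simp
    rw [hq]
    ring
  obtain ⟨l, l0, l1, hl⟩ : ∃ l : ℝ, 0 ≤ l ∧ l ≤ 1 ∧ W = x + l * (1 - e - x) := by
    rcases (h1.trans h2).eq_or_lt with h | h
    · exact ⟨0, le_rfl, zero_le_one, by linarith⟩
    · have := sub_pos.2 h
      exact ⟨(W - x) / (1 - e - x), div_nonneg (sub_nonneg.2 h1) this.le,
        (div_le_one this).2 (by linarith), by field_simp; ring⟩
  rw [eU] at hl
  have k : 4 * q ^ 2 * (ps' e w x + (w + W) * (w + W - ps e w x) / 2 -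
      (τ * ((1 - e) * (w - x) ^ 2 - e * ((w ^ 2 - x ^ 2) / 2)) + (2 * w - x) * (W - x))) =
      (e ^ 2 * w ^ 3 + (1 - e) ^ 2 * w * (W - x) * q) / 100 +
      (e ^ 2 * w ^ 2 * p0 w e * (1 - l) ^ 2 + w * p1 w e * (l * (1 - l)) + p2 w e * l ^ 2) := by
    rw [hl, ex, et]
    unfold ps ps' p0 p1 p2
    field_simp
    rw [hq]
    ring
  have a0 := p0_nonneg hw0.le hw1 he0 he1
  have a1 := p1_nonneg hw0.le hw1 he0 he1
  have a2 := p2_nonneg hw0.le hw1 he0 he1
  have l2 := sub_nonneg.2 l1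
  have a3 : 0 ≤ e ^ 2 * w ^ 2 * p0 w e * (1 - l) ^ 2 + w * p1 w e * (l * (1 - l)) +
      p2 w e * l ^ 2 := by positivity
  have b1 : 0 ≤ e ^ 2 * w ^ 3 := by positivity
  have b2 : 0 ≤ (1 - e) ^ 2 * w * (W - x) := by have := sub_nonneg.2 h1; positivity
  have b3 : q ^ 2 ≤ q := by nlinarith
  refine le_of_mul_le_mul_left ?_ (show 0 < 4 * q ^ 2 by positivity)
  nlinarith [mul_le_mul_of_nonneg_left b3 b2, mul_le_mul_of_nonneg_left (b3.trans q1) b1]

/-- the case of a dominant eigenvalue. -/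
theorem Dat.small (H : Dat i₀ s B h) {a τ σ w x W : ℝ} (ha : ∀ j, j ≠ i₀ → s j ≤ a)
    (hτ : 0 ≤ τ) (hσ : σ = ∑ j ∈ univ.erase i₀, s j) (hw : w = 1 / (1 + τ))
    (hx : x = σ / (1 + τ * σ)) (hW : W = ∑ j ∈ univ.erase i₀, ww s τ j) (h1 : σ ≤ 1) :
    τ * Br B h (ww s τ) + ((1 - σ) ^ 2 * w ^ 3 + σ ^ 2 * w * (W - x)) / 400 ≤
      ps' (1 - σ) w x + (w + W) * (w + W - ps (1 - σ) w x) / 2 ∧
      0 ≤ W - x ∧ σ * (τ * (σ - a) * w ^ 2) ≤ W - x := by
  have σ0 : 0 ≤ σ := hσ ▸ sum_nonneg fun j _ => H.nonneg j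
  have w0 : 0 < w := by rw [hw]; positivity
  have tw : τ * w = 1 - w := by rw [hw]; field_simp; ring
  have w1 : w ≤ 1 := by nlinarith [mul_nonneg hτ w0.le]
  have dp := den_pos hτ σ0
  obtain ⟨v, hv⟩ : ∃ v, v = 1 / (1 + τ * σ) := ⟨_, rfl⟩
  have v0 : 0 < v := by rw [hv]; positivity
  have xv : x = σ * v := by rw [hx, hv]; ring
  have tx : τ * x = 1 - v := by rw [hx, hv]; field_simp; ring
  have x0 : 0 ≤ x := by rw [xv]; positivity
  have dl : w - x = (1 - σ) * w * v := by rw [hx, hv, hw]; field_simp; ring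
  have xw : x ≤ w := by
    have : 0 ≤ (1 - σ) * w * v := by have := sub_nonneg.2 h1; positivity
    linarith
  have sσ : ∀ j, j ≠ i₀ → s j ≤ σ := fun j hj =>
    hσ ▸ single_le_sum (fun i _ => H.nonneg i) (mem_erase.2 ⟨hj, mem_univ j⟩)
  have le : ∀ j, j ≠ i₀ → ww s τ j ≤ x := fun j hj => hx ▸ frac_mono hτ (H.nonneg j) (sσ j hj)
  have nn : ∀ i, 0 ≤ ww s τ i := fun i => div_nonneg (H.nonneg i) (den_pos hτ (H.nonneg i)).le
  obtain ⟨z, hz⟩ : ∃ z, z = (w ^ 2 - x ^ 2) / 2 := ⟨_, rfl⟩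
  have z0 : 0 ≤ z := by nlinarith
  let y : ι → ℝ := fun i => if i = i₀ then -z else z + w ^ 2 - (2 * w - x) * ww s τ i
  have y0 : y i₀ = -z := if_pos rfl
  have y1 : ∀ j, j ≠ i₀ → y j = z + w ^ 2 - (2 * w - x) * ww s τ j := fun j hj => if_neg hj
  have y2 : ∀ j, j ≠ i₀ → z + (w - ww s τ j) ^ 2 ≤ y j := fun j hj => by
    rw [y1 j hj]
    nlinarith [mul_nonneg (nn j) (sub_nonneg.2 (le j hj))]
  have y3 : ∀ j, j ≠ i₀ → z * ww s τ j ^ 2 ≤ y j * (v * (s j * ww s τ j)) := fun j hj => by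
    have f : ww s τ j ^ 2 = s j * ww s τ j * (1 - τ * ww s τ j) := by
      have := frac_id hτ (H.nonneg j)
      unfold ww
      linear_combination (s j / (1 + τ * s j)) * this
    have g : z * (1 - τ * ww s τ j) ≤ y j * v := by
      have t1 := sub_nonneg.2 (le j hj)
      have t2 : τ * z ≤ (2 * w - x) * v := by
        have : τ * z = (1 - σ) * (1 - w) * v * ((w + x) / 2) := by
          rw [hz, ← tw]
          linear_combination (τ * (w + x) / 2) * dl
        have u1 : (1 - σ) * (1 - w) ≤ 1 := by nlinarith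
        have u2 := mul_le_mul_of_nonneg_right u1 (show 0 ≤ v * ((w + x) / 2) by positivity)
        nlinarith [mul_le_mul_of_nonneg_left xw v0.le]
      have t3 := mul_le_mul_of_nonneg_right t2 t1
      have t4 : 0 ≤ (w - x) ^ 2 * v := by positivity
      have t5 : z * (1 - τ * ww s τ j) = z * v + τ * z * (x - ww s τ j) := by
        linear_combination (-z) * tx
      rw [y1 j hj, t5]
      nlinarith
    rw [f]
    nlinarith [mul_le_mul_of_nonneg_left g (mul_nonneg (H.nonneg j) (nn j))]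
  have m : ∑ j ∈ univ.erase i₀, v * (s j * ww s τ j) ≤ x ^ 2 := by
    rw [sq, xv, mul_comm σ, mul_assoc, ← mul_sum, mul_comm v σ, ← xv, hσ, sum_mul]
    exact mul_le_mul_of_nonneg_left (sum_le_sum fun j hj =>
      mul_le_mul_of_nonneg_left (le j (ne_of_mem_erase hj)) (H.nonneg j)) v0.le
  have d := H.dual (w := ww s τ) (y := y) (fun i j hij => by
      by_cases hi : i = i₀
      · subst hi
        rw [y0, H.w0, ← hw]
        linarith [y2 j hij.symm]
      by_cases hj : j = i₀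
      · subst hj
        rw [y0, H.w0, ← hw]
        nlinarith [y2 i hi]
      nlinarith [y2 i hi, y2 j hj,
        mul_nonneg (sub_nonneg.2 ((le i hi).trans xw)) (sub_nonneg.2 ((le j hj).trans xw))])
    (fun c => by
      obtain ⟨b, hb⟩ : ∃ b, c i₀ = b * w := ⟨c i₀ / w, by field_simp⟩
      have t : 0 ≤ ∑ j ∈ univ.erase i₀, (y j * c j ^ 2 + 2 * z * b * (ww s τ j * c j) +
          z * b ^ 2 * (v * (s j * ww s τ j))) := sum_nonneg fun j hj => by
        have j0 := ne_of_mem_erase hj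
        have u0 : 0 ≤ y j := (add_nonneg z0 (sq_nonneg _)).trans (y2 j j0)
        have u1 : 0 ≤ z * b ^ 2 * (v * (s j * ww s τ j)) := by
          have := H.nonneg j
          have := nn j
          positivity
        have u2 : (z * b * (ww s τ j * c j)) ^ 2 ≤
            y j * c j ^ 2 * (z * b ^ 2 * (v * (s j * ww s τ j))) := by
          nlinarith [mul_le_mul_of_nonneg_left (y3 j j0)
            (show 0 ≤ z * b ^ 2 * c j ^ 2 by positivity)]
        have u3 : 0 ≤ y j * c j ^ 2 := mul_nonneg u0 (sq_nonneg _)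
        nlinarith [abs_le_of_sq_le_sq' (show (2 * (z * b * (ww s τ j * c j))) ^ 2 ≤
          (y j * c j ^ 2 + z * b ^ 2 * (v * (s j * ww s τ j))) ^ 2 by
            nlinarith [sq_nonneg (y j * c j ^ 2 - z * b ^ 2 * (v * (s j * ww s τ j)))])
          (add_nonneg u3 u1)]
      rw [sum_add_distrib, sum_add_distrib, ← mul_sum, ← mul_sum] at t
      rw [← add_sum_erase _ _ (mem_univ i₀), ← add_sum_erase _ _ (mem_univ i₀), y0, H.w0, ← hw, hb]
      have u := mul_le_mul_of_nonneg_left m (show 0 ≤ z * b ^ 2 by positivity)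
      have x2 : x ^ 2 = w ^ 2 - 2 * z := by linarith
      rw [x2] at u
      nlinarith [sq_nonneg (w * (b * w) + ∑ j ∈ univ.erase i₀, ww s τ j * c j - 2 * z * b)])
  have e : τ * ∑ i, s i * y i =
      τ * (σ * (z + w ^ 2) - z) - (2 * w - x) * (σ - W) := by
    rw [← add_sum_erase _ _ (mem_univ i₀), y0, H.one, mul_add, mul_sum]
    have : ∑ j ∈ univ.erase i₀, τ * (s j * y j) = ∑ j ∈ univ.erase i₀,
        (τ * (z + w ^ 2) * s j - (2 * w - x) * (s j - ww s τ j)) := sum_congr rfl fun j hj => by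
      rw [y1 j (ne_of_mem_erase hj)]
      have := frac_id hτ (H.nonneg j)
      unfold ww
      linear_combination (-(2 * w - x)) * this
    rw [this, sum_sub_distrib, ← mul_sum, ← mul_sum, sum_sub_distrib, ← hσ, ← hW]
    ring
  have gap : ∀ c, (∀ j, j ≠ i₀ → s j ≤ c) → σ * (τ * (σ - c) * w ^ 2) ≤ W - x := fun c hc => by
    have e1 : ∀ t, σ * t = ∑ j ∈ univ.erase i₀, s j * t := fun t => by rw [← sum_mul, ← hσ]
    rw [xv, hW, e1, e1 v, ← sum_sub_distrib]
    refine sum_le_sum fun j hj => ?_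
    have j0 := ne_of_mem_erase hj
    have := frac_gap hτ (H.nonneg j) (sσ j j0) h1 (hc j j0)
    rwa [← hw, ← hv] at this
  have g0 : 0 ≤ W - x := by simpa using gap σ sσ
  have Wσ : W ≤ σ := by
    rw [hW, hσ]
    exact sum_le_sum fun j _ => div_le_self (H.nonneg j)
      (le_add_of_nonneg_right (mul_nonneg hτ (H.nonneg j)))
  have P := poly (e := 1 - σ) (w := w) (x := x) (W := W) (τ := τ) (sub_nonneg.2 h1) (by linarith)
    w0 w1 tw (by rw [hx, hw]; field_simp; ring) (by linarith) (by linarith)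
  refine ⟨?_, g0, gap a ha⟩
  have sx : τ * σ * x = σ - x := by linear_combination σ * tx + xv
  have d' := mul_le_mul_of_nonneg_left d hτ
  rw [e, hz] at d'
  rw [sub_sub_cancel] at P
  nlinarith [congrArg (· * (2 * w - x)) sx]

end Pool.Agent.MP_815c6c_an.Lam
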